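import Pool.Agent.H240Z.ReactC

set_option autoImplicit false

namespace Pool.Agent.Results.MP_360b3f_an.ANoBoundedSolution

open MeasureTheory Set Pool.Agent.H240Z.React
open scoped ContDiff

/-- In every dimension `N ≥ 3` and for every admissible kernel `K`, with `L₁ = J_K` and
`L₂ = -Δ`, there are a smooth nonlinearity `f ≥ 0` and a bounded compactly supported `u₀ ≥ 0` for
which no mild solution on the time interval `[0, 2]` has a bounded component `u`. -/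
theorem result (N : ℕ) (hN : 3 ≤ N) (K : EuclideanSpace ℝ (Fin N) → ℝ) (hK : ContDiff ℝ ∞ K)
    (hKc : HasCompactSupport K) (hK0 : ∀ x, 0 ≤ K x) :
    ∃ (f : ℝ → ℝ) (u₀ : EuclideanSpace ℝ (Fin N) → ℝ),
      ContDiff ℝ ∞ f ∧ (∀ s, 0 ≤ f s) ∧
      Measurable u₀ ∧ (∀ x, 0 ≤ u₀ x ∧ u₀ x ≤ 3) ∧ HasCompactSupport u₀ ∧
      ¬ ∃ (u v : ℝ → EuclideanSpace ℝ (Fin N) → ℝ) (B : ℝ),
        IsMild K f u₀ 2 u v ∧ ∀ᵐ x, ∀ t ∈ Icc (0 : ℝ) 2, u t x ≤ B :=
  main N hN K hK hKc hK0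

end Pool.Agent.Results.MP_360b3f_an.ANoBoundedSolution
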